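import Mathlib
import Pool.Agent.Q148.SM.Stm

/-!
# Project SM of helper148: the statement `S_POLY`
-/

namespace Pool.Agent.Q204.SM

open Finset Polynomial Pool.Agent.Q148.SM

/-- A multiset with `N` elements is a family. -/
theorem exists_family {α : Type*} (s : Multiset α) {N : ℕ} (h : s.card = N) :
    ∃ w : Fin N → α, s = (univ : Finset (Fin N)).val.map w := by
  induction s using Quotient.inductionOn with
  | _ l =>
    subst h
    refine ⟨fun k => l.get k, ?_⟩
    rw [Fin.univ_val_map]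
    exact congrArg _ (List.ofFn_get l).symm

theorem le_exp_half {x : ℝ} (hx : 0 ≤ x) : x ≤ Real.exp ((x ^ 2 - 1) / 2) := by
  have h1 := Real.add_one_le_exp (x ^ 2 - 1)
  have h2 : Real.exp (x ^ 2 - 1) = Real.exp ((x ^ 2 - 1) / 2) ^ 2 := by
    rw [← Real.exp_nat_mul]
    congr 1
    push_cast
    ring
  rw [h2] at h1
  exact (sq_le_sq₀ hx (Real.exp_pos _).le).1 (by linarith)

theorem t_POLY : S_POLY := by
  intro N hN a ha ha1 z hz P hP hna
  obtain ⟨ζ, hζ⟩ : ∃ ζ : Fin (N + 1) → ℂ, ζ = Fin.cons (a : ℂ) z := ⟨_, rfl⟩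
  have hζ1 : ∀ i, ‖ζ i‖ ≤ 1 := by
    intro i
    rw [hζ]
    refine Fin.cases ?_ (fun j => ?_) i
    · simpa [abs_of_pos ha] using ha1
    · simpa using hz j
  have hPζ : P = ∏ i, (X - C (ζ i)) := by
    rw [hP, hζ, Fin.prod_univ_succ]
    simp
  have hPmon : P.Monic := by
    rw [hPζ]
    exact monic_prod_of_monic _ _ fun j _ => monic_X_sub_C _
  have hPdeg : P.natDegree = N + 1 := by
    rw [hPζ, natDegree_prod_of_monic _ _ fun j _ => monic_X_sub_C _]
    simp
  have hdd : P.derivative.natDegree = N := by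
    rw [natDegree_derivative, hPdeg]
    rfl
  have hlc : P.derivative.leadingCoeff = (N : ℂ) + 1 := by
    rw [leadingCoeff, hdd, coeff_derivative, ← hPdeg, hPmon.coeff_natDegree, one_mul]
  have hN1 : (N : ℂ) + 1 ≠ 0 := by exact_mod_cast Nat.succ_ne_zero N
  have hN0 : (N : ℂ) ≠ 0 := by
    have : N ≠ 0 := by omega
    exact_mod_cast this
  have hD0 : P.derivative ≠ 0 := by
    intro h
    rw [h, leadingCoeff_zero] at hlc
    exact hN1 hlc.symm
  have hsp := IsAlgClosed.splits P.derivative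
  have hcard : P.derivative.roots.card = N := by
    rw [← hdd]
    exact hsp.natDegree_eq_card_roots.symm
  obtain ⟨w, hw⟩ := exists_family P.derivative.roots hcard
  refine ⟨w, hw, ?_⟩
  have hDer : P.derivative = C ((N : ℂ) + 1) * ∏ k, (X - C (w k)) := by
    conv_lhs => rw [hsp.eq_prod_roots, hlc, hw, Multiset.map_map]
    rfl
  have hwmem : ∀ k, w k ∈ P.derivative.roots := by
    intro k
    rw [hw]
    exact Multiset.mem_map_of_mem w (mem_univ k)
  -- the centroid
  have hcen : cen w = (∑ i, ζ i) / ((N : ℂ) + 1) := by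
    obtain ⟨M, rfl⟩ : ∃ M, N = M + 1 := ⟨N - 1, by omega⟩
    have h1 : P.derivative.coeff M = -(∑ i, ζ i) * ((M : ℂ) + 1) := by
      rw [coeff_derivative]
      congr 1
      have h2 := prod_X_sub_C_coeff_card_pred (univ : Finset (Fin (M + 1 + 1))) ζ (by simp)
      rw [hPζ]
      simpa using h2
    have h3 : P.derivative.coeff M = (((M + 1 : ℕ) : ℂ) + 1) * -(∑ k, w k) := by
      rw [hDer, coeff_C_mul]
      congr 1
      have h2 := prod_X_sub_C_coeff_card_pred (univ : Finset (Fin (M + 1))) w (by simp)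
      simpa using h2
    rw [h1] at h3
    unfold cen
    rw [div_eq_div_iff hN0 hN1]
    push_cast at h3 ⊢
    linear_combination h3
  have hcen' : ∑ i, ζ i = ((N : ℂ) + 1) * cen w := by
    rw [hcen, mul_div_cancel₀ _ hN1]
  have hcard' : (univ : Finset (Fin (N + 1))).card = N + 1 := by simp
  refine ⟨ha, ha1, ?_, ?_, ?_, ?_, ?_, ?_⟩
  · -- Gauss-Lucas
    intro k
    have hdeg : 0 < P.degree := by
      rw [degree_eq_natDegree hPmon.ne_zero, hPdeg]
      exact_mod_cast Nat.succ_pos N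
    have h1 : w k ∈ P.derivative.rootSet ℂ := by
      rw [mem_rootSet, coe_aeval_eq_eval]
      exact ⟨hD0, (mem_roots hD0).1 (hwmem k)⟩
    have h2 := rootSet_derivative_subset_convexHull_rootSet hdeg h1
    have h3 : convexHull ℝ (P.rootSet ℂ) ⊆ Metric.closedBall (0 : ℂ) 1 := by
      apply convexHull_min _ (convex_closedBall _ _)
      intro x hx
      rw [mem_rootSet, coe_aeval_eq_eval] at hx
      have h4 := hx.2
      rw [hPζ, eval_prod, prod_eq_zero_iff] at h4
      obtain ⟨i, _, hi⟩ := h4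
      rw [eval_sub, eval_X, eval_C, sub_eq_zero] at hi
      rw [mem_closedBall_zero_iff, hi]
      exact hζ1 i
    have h5 := h3 h2
    rwa [mem_closedBall_zero_iff] at h5
  · intro k h
    rw [sub_eq_zero] at h
    apply hna
    rw [h]
    exact hwmem k
  · change P.eval (a : ℂ) = 0
    rw [hP]
    simp
  · intro b
    have h1 := P.hasDerivAt b
    refine h1.congr_deriv ?_
    rw [hDer, eval_mul, eval_C, eval_prod]
    simp
  · change ‖P.eval 0‖ ≤ a
    rw [hP, eval_mul, eval_prod, norm_mul, norm_prod]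
    have h1 : ‖eval 0 (X - C (a : ℂ))‖ = a := by
      simp [abs_of_pos ha]
    rw [h1]
    apply mul_le_of_le_one_right ha.le
    apply prod_le_one (fun j _ => norm_nonneg _)
    intro j _
    simpa using hz j
  · intro b
    change ‖P.eval b‖ ≤ _
    have h1 : ‖P.eval b‖ = ∏ i, ‖b - ζ i‖ := by
      rw [hPζ, eval_prod, norm_prod]
      simp
    rw [h1]
    have h2 : ∏ i, ‖b - ζ i‖ ≤ ∏ i, Real.exp ((‖b - ζ i‖ ^ 2 - 1) / 2) :=
      prod_le_prod (fun i _ => norm_nonneg _) fun i _ => le_exp_half (norm_nonneg _)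
    refine h2.trans ?_
    rw [← Real.exp_sum]
    apply Real.exp_le_exp.2
    have h3 : ∀ i, (‖b - ζ i‖ ^ 2 - 1) / 2 ≤
        ‖b‖ ^ 2 / 2 - ((starRingEnd ℂ) b * ζ i).re := by
      intro i
      have h4 : ‖b - ζ i‖ ^ 2 = ‖b‖ ^ 2 + ‖ζ i‖ ^ 2 - 2 * ((starRingEnd ℂ) b * ζ i).re := by
        rw [Complex.sq_norm, Complex.sq_norm, Complex.sq_norm, Complex.normSq_sub]
        simp
      have h5 : ‖ζ i‖ ^ 2 ≤ 1 := pow_le_one₀ (norm_nonneg _) (hζ1 i)
      rw [h4]
      linarith
    refine (sum_le_sum fun i _ => h3 i).trans ?_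
    rw [sum_sub_distrib, sum_const, hcard', nsmul_eq_mul]
    have h6 : ∑ i, ((starRingEnd ℂ) b * ζ i).re =
        ((N : ℝ) + 1) * ((starRingEnd ℂ) b * cen w).re := by
      rw [← Complex.re_sum, ← mul_sum, hcen']
      have h7 : (starRingEnd ℂ) b * (((N : ℂ) + 1) * cen w) =
          (((N : ℝ) + 1 : ℝ) : ℂ) * ((starRingEnd ℂ) b * cen w) := by
        push_cast
        ring
      rw [h7, Complex.re_ofReal_mul]
    rw [h6]
    push_cast
    apply le_of_eq
    ring

end Pool.Agent.Q204.SM
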