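import Mathlib
import Pool.Agent.Q148.SM.Stm

/-!
# Project SM of helper148: the statement `S_RAD`
-/

namespace Pool.Agent.Q204.SM

open Finset Pool.Agent.Q148.SM

theorem exp_neg_ten_le : Real.exp (-10) ≤ 1 / 20000 := by
  rw [Real.exp_neg, inv_eq_one_div]
  apply one_div_le_one_div_of_le (by norm_num)
  have h1 : Real.exp 10 = Real.exp 1 ^ 10 := by
    rw [← Real.exp_nat_mul]
    norm_num
  rw [h1]
  have h2 := Real.exp_one_gt_d9
  calc (20000 : ℝ) ≤ 2.7 ^ 10 := by norm_num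
    _ ≤ Real.exp 1 ^ 10 := pow_le_pow_left₀ (by norm_num) (by linarith) 10

theorem t_RAD (hF5 : S_F5) (hLOGD : S_LOGD) : S_RAD := by
  intro N d I hN hI hS hsig
  have hN' : (1 : ℝ) ≤ N := by exact_mod_cast hN
  obtain ⟨σ, hσ⟩ : ∃ σ : ℂ, σ = sg d := ⟨_, rfl⟩
  obtain ⟨s, hs⟩ : ∃ s : ℝ, s = ‖σ‖ := ⟨_, rfl⟩
  obtain ⟨q, hq⟩ : ∃ q : ℝ, q = √(N : ℝ) := ⟨_, rfl⟩
  have hq0 : 0 ≤ q := by rw [hq]; exact Real.sqrt_nonneg _
  have hqq : q * q = N := by rw [hq]; exact Real.mul_self_sqrt (by linarith)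
  have hq1 : 1 ≤ q := by rw [hq]; exact Real.one_le_sqrt.2 hN'
  have hs0' : 0 ≤ s := by rw [hs]; exact norm_nonneg _
  rw [← hσ, ← hs] at hsig
  have hs40 : 40 * q ≤ s := by
    have h1 : (40 * q) ^ 2 ≤ s ^ 2 := by
      calc (40 * q) ^ 2 = 1600 * (q * q) := by ring
        _ ≤ s ^ 2 := by rw [hqq]; exact hsig
    exact (sq_le_sq₀ (by positivity) hs0').1 h1
  have hs0 : 0 < s := by linarith
  have hsne : (s : ℂ) ≠ 0 := by exact_mod_cast hs0.ne'
  obtain ⟨e, he⟩ : ∃ e : ℂ, e = (starRingEnd ℂ) σ / s := ⟨_, rfl⟩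
  have hσe : σ * e = s := by
    rw [he, ← mul_div_assoc, Complex.mul_conj, Complex.normSq_eq_norm_sq, ← hs]
    push_cast
    field_simp
  have hen : ‖e‖ = 1 := by
    rw [he, norm_div, RCLike.norm_conj, ← hs, Complex.norm_real, Real.norm_eq_abs,
      abs_of_pos hs0, div_self hs0.ne']
  -- the derivative of `G`
  have hG : ∀ r : ℝ, HasDerivAt (fun r : ℝ => σ * I (e * r)) (s * D d (e * r)) r := by
    intro r
    have h1 : HasDerivAt (fun r : ℝ => e * (r : ℂ)) e r := by
      simpa using (Complex.ofRealCLM.hasDerivAt (x := r)).const_mul e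
    have h2 := (HasDerivAt.scomp r (hI.der (e * r)) h1).const_mul σ
    refine h2.congr_deriv ?_
    rw [smul_eq_mul, ← mul_assoc, hσe]
  have hGc : ∀ t : Set ℝ, ContinuousOn (fun r : ℝ => σ * I (e * r)) t := fun t r _ =>
    (hG r).continuousAt.continuousWithinAt
  have hern : ∀ r : ℝ, 0 ≤ r → ‖e * (r : ℂ)‖ = r := by
    intro r hr
    rw [norm_mul, hen, one_mul, Complex.norm_real, Real.norm_eq_abs, abs_of_nonneg hr]
  have hers : ∀ r : ℝ, e * (r : ℂ) * sg d = ((s * r : ℝ) : ℂ) := by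
    intro r
    rw [← hσ]
    push_cast
    rw [← hσe]
    ring
  -- the first part
  obtain ⟨ρ, hρ⟩ : ∃ ρ : ℝ, ρ = 1 / (2 * q) := ⟨_, rfl⟩
  have hρ0 : 0 < ρ := by rw [hρ]; positivity
  have hρq : ρ * q = 1 / 2 := by
    rw [hρ]
    field_simp
  have hρs : 20 ≤ ρ * s := by
    calc (20 : ℝ) = 40 * (ρ * q) := by rw [hρq]; norm_num
      _ = ρ * (40 * q) := by ring
      _ ≤ ρ * s := by gcongr
  have hdk : ∀ k, ‖d k‖ ≤ q := by
    intro k
    have h1 : ‖d k‖ ^ 2 ≤ SS d := by
      unfold SS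
      exact single_le_sum (f := fun k => ‖d k‖ ^ 2) (fun i _ => by positivity) (mem_univ k)
    have h2 : ‖d k‖ ^ 2 ≤ q ^ 2 := by
      rw [pow_two q, hqq]
      linarith
    exact (sq_le_sq₀ (norm_nonneg _) hq0).1 h2
  have hD1 : ∀ r : ℝ, 0 ≤ r → r ≤ ρ →
      ‖D d (e * r) - Real.exp (-(s * r))‖ ≤ 5 / 4 * (N * r ^ 2) * Real.exp (-(s * r)) := by
    intro r hr0 hr
    obtain ⟨E, hE, hEn⟩ := hLOGD N d (e * r) (fun k => by
      rw [hern r hr0]
      calc r * ‖d k‖ ≤ ρ * q := by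
            apply mul_le_mul hr (hdk k) (norm_nonneg _) hρ0.le
        _ = 1 / 2 := hρq)
    rw [hern r hr0] at hEn
    rw [hers] at hE
    have hE1 : ‖E‖ ≤ N * r ^ 2 := by
      calc ‖E‖ ≤ r ^ 2 * SS d := hEn
        _ ≤ r ^ 2 * N := by gcongr
        _ = N * r ^ 2 := by ring
    have hE2 : (N : ℝ) * r ^ 2 ≤ 1 / 4 := by
      calc (N : ℝ) * r ^ 2 ≤ N * ρ ^ 2 := by gcongr
        _ = (ρ * q) ^ 2 := by rw [← hqq]; ring
        _ = 1 / 4 := by rw [hρq]; norm_num
    have hE3 : ‖E‖ ≤ 1 / 4 := hE1.trans hE2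
    have h1 : ‖Complex.exp E - 1‖ ≤ 5 / 4 * ‖E‖ := by
      have h2 := Complex.norm_exp_sub_one_sub_id_le (x := E) (by linarith)
      have h3 : Complex.exp E - 1 = (Complex.exp E - 1 - E) + E := by ring
      have h4 : ‖E‖ ^ 2 ≤ 1 / 4 * ‖E‖ := by
        have := norm_nonneg E
        nlinarith
      rw [h3]
      calc ‖(Complex.exp E - 1 - E) + E‖ ≤ ‖Complex.exp E - 1 - E‖ + ‖E‖ := norm_add_le _ _
        _ ≤ 5 / 4 * ‖E‖ := by linarith
    have h5 : D d (e * r) - Real.exp (-(s * r)) =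
        Real.exp (-(s * r)) * (Complex.exp E - 1) := by
      rw [hE, Complex.exp_add]
      push_cast
      ring
    rw [h5, norm_mul, Complex.norm_real, Real.norm_eq_abs, abs_of_pos (Real.exp_pos _)]
    calc Real.exp (-(s * r)) * ‖Complex.exp E - 1‖
        ≤ Real.exp (-(s * r)) * (5 / 4 * (N * r ^ 2)) := by
          gcongr
          exact h1.trans (by gcongr)
      _ = 5 / 4 * (N * r ^ 2) * Real.exp (-(s * r)) := by ring
  have hpart1 : ‖σ * I (e * ρ) - (1 - Real.exp (-(s * ρ)))‖ ≤ 5 / 3200 := by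
    have hexp : ∀ r : ℝ, HasDerivAt (fun r : ℝ => Real.exp (-(s * r)))
        (-(s * Real.exp (-(s * r)))) r := by
      intro r
      have h0 : HasDerivAt (fun r : ℝ => s * r) s r := by
        simpa using (hasDerivAt_id r).const_mul s
      have h1 : HasDerivAt (fun r : ℝ => -(s * r)) (-s) r := h0.neg
      refine (h1.exp).congr_deriv ?_
      ring
    have hkey := image_norm_le_of_norm_deriv_right_le_deriv_boundary
      (f := fun r : ℝ => σ * I (e * r) - (1 - (Real.exp (-(s * r)) : ℂ)))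
      (f' := fun r : ℝ => s * D d (e * r) - s * (Real.exp (-(s * r)) : ℂ))
      (a := 0) (b := ρ)
      (B := fun r : ℝ => 5 / 2 * N / s ^ 2 *
        (1 - Real.exp (-(s * r)) * (1 + s * r + s ^ 2 * r ^ 2 / 2)))
      (B' := fun r : ℝ => 5 / 4 * N * s * r ^ 2 * Real.exp (-(s * r))) ?_ ?_ ?_ ?_ ?_
      (x := ρ) ⟨hρ0.le, le_rfl⟩
    · refine hkey.trans ?_
      have h1 : 0 ≤ Real.exp (-(s * ρ)) * (1 + s * ρ + s ^ 2 * ρ ^ 2 / 2) := by positivity
      calc 5 / 2 * N / s ^ 2 * (1 - Real.exp (-(s * ρ)) * (1 + s * ρ + s ^ 2 * ρ ^ 2 / 2))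
          ≤ 5 / 2 * N / s ^ 2 * 1 := by
            apply mul_le_mul_of_nonneg_left _ (by positivity)
            linarith
        _ ≤ 5 / 3200 := by
            rw [mul_one, div_le_div_iff₀ (by positivity) (by norm_num)]
            linarith
    · intro r _
      have h1 := (hG r).sub ((hasDerivAt_const r (1 : ℂ)).sub (hexp r).ofReal_comp)
      exact h1.continuousAt.continuousWithinAt
    · intro r _
      have h1 := (hG r).sub ((hasDerivAt_const r (1 : ℂ)).sub (hexp r).ofReal_comp)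
      refine (h1.congr_deriv ?_).hasDerivWithinAt
      push_cast
      ring
    · simp [hI.zero]
    · intro r
      have h1 : HasDerivAt (fun r : ℝ => 1 + s * r + s ^ 2 * r ^ 2 / 2) (s + s ^ 2 * r) r := by
        have h2 : HasDerivAt (fun r : ℝ => s * r) s r := by
          simpa using (hasDerivAt_id r).const_mul s
        have h3 : HasDerivAt (fun r : ℝ => s ^ 2 * r ^ 2 / 2) (s ^ 2 * r) r := by
          have := (((hasDerivAt_pow 2 r).const_mul (s ^ 2)).div_const 2)
          refine this.congr_deriv ?_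
          push_cast
          ring
        exact (h2.const_add 1).add h3
      have h4 := ((hasDerivAt_const r (1 : ℝ)).sub ((hexp r).mul h1)).const_mul (5 / 2 * N / s ^ 2)
      refine h4.congr_deriv ?_
      field_simp
      ring
    · intro r hr
      have h1 := hD1 r hr.1 hr.2.le
      have h2 : (s : ℂ) * D d (e * r) - s * (Real.exp (-(s * r)) : ℂ) =
          s * (D d (e * r) - Real.exp (-(s * r))) := by ring
      rw [h2, norm_mul, Complex.norm_real, Real.norm_eq_abs, abs_of_pos hs0]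
      calc s * ‖D d (e * r) - Real.exp (-(s * r))‖
          ≤ s * (5 / 4 * (N * r ^ 2) * Real.exp (-(s * r))) := by gcongr
        _ = 5 / 4 * N * s * r ^ 2 * Real.exp (-(s * r)) := by ring
  -- the second part
  obtain ⟨R, hR⟩ : ∃ R : ℝ, R = s / N := ⟨_, rfl⟩
  have hρR : ρ ≤ R := by
    rw [hρ, hR, div_le_div_iff₀ (by positivity) (by linarith), one_mul, ← hqq]
    calc q * q ≤ q * (2 * (40 * q)) := by gcongr; linarith
      _ ≤ q * (2 * s) := by gcongr
      _ = s * (2 * q) := by ring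
  have hRN : R * N = s := by
    rw [hR]
    field_simp
  have hpart2 : ‖σ * I (e * R) - σ * I (e * ρ)‖ ≤ 2 * Real.exp (-10) := by
    have hexp : ∀ r : ℝ, HasDerivAt (fun r : ℝ => Real.exp (-(r * s / 2)))
        (-(s / 2 * Real.exp (-(r * s / 2)))) r := by
      intro r
      have h0 : HasDerivAt (fun r : ℝ => r * s / 2) (s / 2) r := by
        simpa using ((hasDerivAt_id r).mul_const s).div_const 2
      have h1 : HasDerivAt (fun r : ℝ => -(r * s / 2)) (-(s / 2)) r := h0.neg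
      refine (h1.exp).congr_deriv ?_
      ring
    have hkey := image_norm_le_of_norm_deriv_right_le_deriv_boundary
      (f := fun r : ℝ => σ * I (e * r) - σ * I (e * ρ))
      (f' := fun r : ℝ => s * D d (e * r))
      (a := ρ) (b := R)
      (B := fun r : ℝ => 2 * (Real.exp (-(ρ * s / 2)) - Real.exp (-(r * s / 2))))
      (B' := fun r : ℝ => s * Real.exp (-(r * s / 2))) ?_ ?_ ?_ ?_ ?_
      (x := R) ⟨hρR, le_rfl⟩
    · refine hkey.trans ?_
      have h1 : Real.exp (-(ρ * s / 2)) ≤ Real.exp (-10) := by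
        apply Real.exp_le_exp.2
        linarith
      have h2 := Real.exp_pos (-(R * s / 2))
      linarith
    · intro r _
      exact ((hG r).sub_const _).continuousAt.continuousWithinAt
    · intro r _
      exact ((hG r).sub_const _).hasDerivWithinAt
    · simp
    · intro r
      have h4 := ((hexp r).const_sub (Real.exp (-(ρ * s / 2)))).const_mul 2
      refine h4.congr_deriv ?_
      ring
    · intro r hr
      have hr0 : 0 ≤ r := hρ0.le.trans hr.1
      have h1 := hF5 N d (e * r)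
      rw [hers, Complex.ofReal_re, hern r hr0] at h1
      have h2 : ‖D d (e * r)‖ ^ 2 ≤ Real.exp (-(r * s / 2)) ^ 2 := by
        refine h1.trans ?_
        rw [← Real.exp_nat_mul]
        apply Real.exp_le_exp.2
        have h3 : r ^ 2 * SS d ≤ r * s := by
          calc r ^ 2 * SS d ≤ r ^ 2 * N := by gcongr
            _ = r * (r * N) := by ring
            _ ≤ r * (R * N) := by
              have := hr.2.le
              gcongr
            _ = r * s := by rw [hRN]
        push_cast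
        linarith
      have h3 : ‖D d (e * r)‖ ≤ Real.exp (-(r * s / 2)) :=
        (sq_le_sq₀ (norm_nonneg _) (Real.exp_pos _).le).1 h2
      rw [norm_mul, Complex.norm_real, Real.norm_eq_abs, abs_of_pos hs0]
      gcongr
  -- the sum
  have hA : (starRingEnd ℂ) (sg d) / N = e * R := by
    rw [he, hR, ← hσ]
    push_cast
    have : (N : ℂ) ≠ 0 := by
      have : N ≠ 0 := by omega
      exact_mod_cast this
    field_simp
  rw [hA, ← hσ]
  have h20 : Real.exp (-(s * ρ)) ≤ Real.exp (-10) := by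
    apply Real.exp_le_exp.2
    nlinarith
  have h10 := exp_neg_ten_le
  have hsum : σ * I (e * R) - 1 = (σ * I (e * R) - σ * I (e * ρ)) +
      (σ * I (e * ρ) - (1 - Real.exp (-(s * ρ)))) - Real.exp (-(s * ρ)) := by ring
  rw [hsum]
  have hn1 := norm_sub_le ((σ * I (e * R) - σ * I (e * ρ)) +
      (σ * I (e * ρ) - (1 - Real.exp (-(s * ρ)))) : ℂ) (Real.exp (-(s * ρ)) : ℂ)
  have hn2 := norm_add_le (σ * I (e * R) - σ * I (e * ρ))
      (σ * I (e * ρ) - (1 - Real.exp (-(s * ρ))) : ℂ)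
  have hn3 : ‖(Real.exp (-(s * ρ)) : ℂ)‖ = Real.exp (-(s * ρ)) := by
    rw [Complex.norm_real, Real.norm_eq_abs, abs_of_pos (Real.exp_pos _)]
  rw [hn3] at hn1
  linarith

end Pool.Agent.Q204.SM
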